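import Pool.Agent.Lib.MP_913206_gt.Tree

set_option autoImplicit false

open Set Filter Topology Pointwise

namespace Pool.Agent.Lib.MP_913206_gt

variable {G : Type*} [Group G]

/-- `S` is Hurewicz-small with respect to the sequence `V`. -/
def HSmall (V : ℕ → Set G) (S : Set G) : Prop :=
  ∃ F : ℕ → Set G, (∀ n, (F n).Finite) ∧ ∀ g ∈ S, ∃ n0, ∀ n ≥ n0, g ∈ F n * V n

theorem HSmall.mono {V : ℕ → Set G} {S S' : Set G} (h : HSmall V S') (hs : S ⊆ S') :
    HSmall V S := by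
  obtain ⟨F, hF, h⟩ := h
  exact ⟨F, hF, fun g hg => h g (hs hg)⟩

theorem HSmall.iUnion_nat {V : ℕ → Set G} {S : ℕ → Set G} (h : ∀ k, HSmall V (S k)) :
    HSmall V (⋃ k, S k) := by
  choose F hF h using h
  refine ⟨fun n => ⋃ k ∈ Finset.range (n+1), F k n, ?_, ?_⟩
  · intro n
    exact Set.Finite.biUnion (Finset.finite_toSet _) fun k _ => hF k n
  · intro g hg
    obtain ⟨k, hk⟩ := mem_iUnion.1 hg
    obtain ⟨n0, hn0⟩ := h k g hk
    refine ⟨max n0 k, fun n hn => ?_⟩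
    refine Set.mul_subset_mul_right ?_ (hn0 n (le_trans (le_max_left _ _) hn))
    intro x hx
    simp only [mem_iUnion, Finset.mem_range]
    exact ⟨k, by have := le_max_right n0 k; omega, hx⟩

theorem HSmall.empty {V : ℕ → Set G} : HSmall V ∅ :=
  ⟨fun _ => ∅, fun _ => finite_empty, by simp⟩

theorem HSmall.sUnion {V : ℕ → Set G} {T : Set (Set G)} (hT : T.Countable)
    (h : ∀ S ∈ T, HSmall V S) : HSmall V (⋃₀ T) := by
  rcases T.eq_empty_or_nonempty with rfl | hne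
  · simpa using HSmall.empty
  · obtain ⟨f, hf⟩ := hT.exists_eq_range hne
    subst hf
    rw [sUnion_range]
    exact HSmall.iUnion_nat fun k => h _ (mem_range_self k)

theorem HSmall.of_bdd {V : ℕ → Set G} {S : Set G} (h : ∀ n, Bdd S (V n)) : HSmall V S := by
  choose F hF h using h
  exact ⟨F, hF, fun g hg => ⟨0, fun n _ => h n hg⟩⟩

theorem HSmall.union {V : ℕ → Set G} {S S' : Set G} (h : HSmall V S) (h' : HSmall V S') :
    HSmall V (S ∪ S') := by
  have := HSmall.sUnion (V := V) (T := {S, S'}) (by simp) (by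
    intro X hX
    rcases hX with rfl | hX
    · exact h
    · rw [mem_singleton_iff.1 hX]; exact h')
  simpa using this

variable [TopologicalSpace G]

/-- From a continuous surjection of the Baire space onto a non-Hurewicz-small group, an unbounded
tree. -/
theorem exists_treeSys (V : ℕ → Set G) (hV : ∀ n, V n ∈ 𝓝 (1:G))
    (f : (ℕ → ℕ) → G) (hf : Continuous f) (hsurj : range f = univ)
    (hnot : ¬ HSmall V (univ : Set G)) : Nonempty (TreeSys G) := by
  classical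
  let 𝒮 : Set (Set (ℕ → ℕ)) := {O | IsOpen O ∧ HSmall V (f '' O)}
  let D : Set (ℕ → ℕ) := ⋃₀ 𝒮
  have hDopen : IsOpen D := isOpen_sUnion fun O hO => hO.1
  have hD : HSmall V (f '' D) := by
    obtain ⟨T, hTc, hT𝒮, hTU⟩ := TopologicalSpace.isOpen_sUnion_countable 𝒮 (fun O hO => hO.1)
    have : f '' D = ⋃₀ ((fun O => f '' O) '' T) := by
      show f '' (⋃₀ 𝒮) = _
      rw [← hTU, image_sUnion]
    rw [this]
    apply HSmall.sUnion (hTc.image _)
    rintro S ⟨O, hO, rfl⟩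
    exact (hT𝒮 hO).2
  let K : Set (ℕ → ℕ) := Dᶜ
  have hKclosed : IsClosed K := hDopen.isClosed_compl
  have hKne : K.Nonempty := by
    by_contra hno
    rw [not_nonempty_iff_eq_empty] at hno
    apply hnot
    have : D = univ := by
      have : K = ∅ := hno
      exact compl_empty_iff.1 this
    rw [this, image_univ, hsurj] at hD
    exact hD
  let cyl : (ℕ → ℕ) → ℕ → Set (ℕ → ℕ) := fun α n => {β | ∀ i < n, β i = α i}
  have hcylopen : ∀ α n, IsOpen (cyl α n) := by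
    intro α n
    have := PiNat.isOpen_cylinder (fun _ => ℕ) α n
    exact this
  have hnonsmall : ∀ α ∈ K, ∀ n, ¬ HSmall V (f '' (cyl α n ∩ K)) := by
    intro α hα n hsm
    have h1 : HSmall V (f '' (cyl α n)) := by
      refine (hsm.union hD).mono ?_
      rintro g ⟨β, hβ, rfl⟩
      by_cases hβD : β ∈ D
      · exact Or.inr ⟨β, hβD, rfl⟩
      · exact Or.inl ⟨β, ⟨hβ, hβD⟩, rfl⟩
    apply hα
    exact ⟨cyl α n, ⟨hcylopen α n, h1⟩, fun i _ => rfl⟩
  have hnb : ∀ v : {v : (ℕ → ℕ) × ℕ // v.1 ∈ K}, ∃ n, ¬ Bdd (f '' (cyl v.1.1 v.1.2 ∩ K)) (V n) := by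
    intro v
    by_contra hno
    push Not at hno
    exact hnonsmall v.1.1 v.2 v.1.2 (HSmall.of_bdd hno)
  choose W hW using hnb
  obtain ⟨κ, hκ⟩ := hKne
  refine ⟨{ N := {v : (ℕ → ℕ) × ℕ // v.1 ∈ K}
            lt := fun v v' => v'.1.1 ∈ cyl v.1.1 v.1.2 ∧ v.1.2 < v'.1.2
            lt_trans := ?_
            P := fun v => f '' (cyl v.1.1 v.1.2 ∩ K)
            W := fun v => V (W v)
            W_nhds := fun v => hV _
            mono := ?_
            ref := ?_
            lim := ?_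
            nb := hW
            root := ⟨(κ, 0), hκ⟩ }⟩
  · rintro ⟨⟨a, n⟩, ha⟩ ⟨⟨b, m⟩, hb⟩ ⟨⟨c, k⟩, hc⟩ ⟨h1, h2⟩ ⟨h3, h4⟩
    dsimp only at h1 h2 h3 h4 ⊢
    refine ⟨fun i hi => ?_, by omega⟩
    rw [h3 i (by omega), h1 i hi]
  · rintro ⟨⟨a, n⟩, ha⟩ ⟨⟨b, m⟩, hb⟩ ⟨h1, h2⟩
    dsimp only at h1 h2 ⊢
    apply image_mono
    apply inter_subset_inter_left
    intro β hβ i hi
    rw [hβ i (by omega), h1 i hi]
  · rintro ⟨⟨α, n⟩, hα⟩ a ⟨β, ⟨hβ, hβK⟩, rfl⟩ U hU
    dsimp only at hβ ⊢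
    have hpre : f ⁻¹' U ∈ 𝓝 β := hf.continuousAt.preimage_mem_nhds hU
    obtain ⟨t, htU, ht, hβt⟩ := mem_nhds_iff.1 hpre
    obtain ⟨s, ⟨x, m, rfl⟩, hxs, hst⟩ :=
      (PiNat.isTopologicalBasis_cylinders (fun _ : ℕ => ℕ)).exists_subset_of_mem_open hβt ht
    refine ⟨⟨(β, max m (n+1)), hβK⟩, ⟨hβ, by have := le_max_right m (n+1); dsimp only; omega⟩,
      ⟨β, ⟨fun i _ => rfl, hβK⟩, rfl⟩, ?_⟩
    rintro g ⟨γ, ⟨hγ, -⟩, rfl⟩
    dsimp only at hγ
    apply htU
    apply hst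
    rw [PiNat.mem_cylinder_iff] at hxs ⊢
    intro i hi
    rw [hγ i (lt_of_lt_of_le hi (le_max_left _ _)), hxs i hi]
  · intro s hs
    have hlen : ∀ k, k ≤ (s k).1.2 := by
      intro k
      induction k with
      | zero => omega
      | succ k ih => have := (hs k).2; omega
    have hcyl : ∀ k j, k ≤ j → (s j).1.1 ∈ cyl (s k).1.1 (s k).1.2 ∧ (s k).1.2 ≤ (s j).1.2 := by
      intro k j hkj
      induction j, hkj using Nat.le_induction with
      | base => exact ⟨fun i _ => rfl, le_refl _⟩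
      | succ j _ ih =>
        refine ⟨fun i hi => ?_, by have := (hs j).2; omega⟩
        rw [(hs j).1 i (by omega), ih.1 i hi]
    let α : ℕ → ℕ := fun i => (s (i+1)).1.1 i
    have hα : ∀ k, α ∈ cyl (s k).1.1 (s k).1.2 := by
      intro k i hi
      show (s (i+1)).1.1 i = (s k).1.1 i
      rcases le_total k (i+1) with h | h
      · exact (hcyl k (i+1) h).1 i hi
      · exact ((hcyl (i+1) k h).1 i (by have := hlen (i+1); omega)).symm
    have hαK : α ∈ K := by
      have : α ∈ closure K := by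
        rw [mem_closure_iff]
        intro t ht hαt
        obtain ⟨S, ⟨x, m, rfl⟩, hxS, hSt⟩ :=
          (PiNat.isTopologicalBasis_cylinders (fun _ : ℕ => ℕ)).exists_subset_of_mem_open hαt ht
        refine ⟨(s m).1.1, hSt ?_, (s m).2⟩
        rw [PiNat.mem_cylinder_iff] at hxS ⊢
        intro i hi
        rw [← hα m i (by have := hlen m; omega), hxS i hi]
      rwa [hKclosed.closure_eq] at this
    exact ⟨f α, fun k => ⟨α, ⟨hα k, hαK⟩, rfl⟩⟩

end Pool.Agent.Lib.MP_913206_gt
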