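import Mathlib

set_option autoImplicit false

open Set Filter Topology Pointwise

namespace Pool.Agent.Lib.MP_913206_gt

universe u

/-- The family of open covers of `X`. Covers are nontrivial: `X` itself is not a member. -/
def OpenCovers (X : Type u) [TopologicalSpace X] : Set (Set (Set X)) :=
  {𝒰 | (∀ U ∈ 𝒰, IsOpen U) ∧ (univ : Set X) ∉ 𝒰 ∧ ⋃₀ 𝒰 = univ}

/-- The family of open gamma-covers of `X`: infinite open covers such that every point lies in all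
but finitely many members. -/
def GammaCovers (X : Type u) [TopologicalSpace X] : Set (Set (Set X)) :=
  {𝒰 | 𝒰 ∈ OpenCovers X ∧ 𝒰.Infinite ∧ ∀ x : X, {U | U ∈ 𝒰 ∧ x ∉ U}.Finite}

/-- The selection principle `S_1(𝒜, ℬ)`. -/
def S1 {X : Type u} (𝒜 ℬ : Set (Set (Set X))) : Prop :=
  ∀ 𝒰 : ℕ → Set (Set X), (∀ n, 𝒰 n ∈ 𝒜) →
    ∃ U : ℕ → Set X, (∀ n, U n ∈ 𝒰 n) ∧ range U ∈ ℬ

/-- The selection principle `S_fin(𝒜, ℬ)`. -/
def Sfin {X : Type u} (𝒜 ℬ : Set (Set (Set X))) : Prop :=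
  ∀ 𝒰 : ℕ → Set (Set X), (∀ n, 𝒰 n ∈ 𝒜) →
    ∃ ℱ : ℕ → Set (Set X), (∀ n, ℱ n ⊆ 𝒰 n ∧ (ℱ n).Finite) ∧ (⋃ n, ℱ n) ∈ ℬ

/-- The family `𝒪_nbd` of covers `{g U : g ∈ G}`, where `U ≠ G` is an open neighbourhood of the
identity. -/
def Onbd (G : Type u) [Group G] [TopologicalSpace G] : Set (Set (Set G)) :=
  {𝒰 | ∃ U : Set G, IsOpen U ∧ (1 : G) ∈ U ∧ U ≠ univ ∧ 𝒰 = {V | ∃ g : G, V = g • U}}

/-- The family `Ω_nbd` of covers `{F U : F ⊆ G finite}`, where `U` is an open neighbourhood of the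
identity with `F U ≠ G` for all finite `F`. -/
def Omeganbd (G : Type u) [Group G] [TopologicalSpace G] : Set (Set (Set G)) :=
  {𝒰 | ∃ U : Set G, IsOpen U ∧ (1 : G) ∈ U ∧ (∀ F : Set G, F.Finite → F * U ≠ univ) ∧
    𝒰 = {V | ∃ F : Set G, F.Finite ∧ V = F * U}}

/-- `X` is an analytic space: separable metrizable and a continuous image of the Baire space. -/
def IsAnalyticSpace (X : Type u) [TopologicalSpace X] : Prop :=
  TopologicalSpace.SeparableSpace X ∧ TopologicalSpace.MetrizableSpace X ∧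
    ∃ f : (ℕ → ℕ) → X, Continuous f ∧ Function.Surjective f

end Pool.Agent.Lib.MP_913206_gt
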