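import Mathlib

set_option autoImplicit false

open Set Filter Topology Pointwise

namespace Pool.Agent.Lib.MP_913206_gt

variable {G : Type*} [Group G]

/-- Pigeonhole step: if the points `s i` are pairwise `W`-separated and `E` is finite, then for some
`i` the set of `x` in `A` with `x * s i` outside `E * V` is not small. -/
theorem pigeon (A : Set G) (I : Set G → Prop)
    (hI_mono : ∀ S S', S ∩ A ⊆ S' → I S' → I S)
    (hI_union : ∀ S S', I S → I S' → I (S ∪ S'))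
    (hI_empty : I ∅) (hI_proper : ¬ I A)
    (E V W : Set G) (hE : E.Finite) (hV : ∀ x ∈ V, ∀ y ∈ V, x⁻¹ * y ∈ W)
    (s : ℕ → G) (hs : ∀ i j, i < j → (s i)⁻¹ * s j ∉ W) :
    ∃ i, ¬ I {x | x ∈ A ∧ x * s i ∉ E * V} := by
  classical
  by_contra hcon
  push Not at hcon
  obtain ⟨E', rfl⟩ : ∃ E' : Finset G, (E' : Set G) = E := ⟨hE.toFinset, hE.coe_toFinset⟩
  have hun : ∀ m : ℕ, I (⋃ i ∈ Finset.range m, {x | x ∈ A ∧ x * s i ∉ (E' : Set G) * V}) := by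
    intro m
    induction m with
    | zero => simpa using hI_empty
    | succ m ih =>
      refine hI_mono _ _ ?_ (hI_union _ _ ih (hcon m))
      intro x hx
      obtain ⟨hx, -⟩ := hx
      simp only [mem_iUnion, Finset.mem_range] at hx
      obtain ⟨i, hi, hxi⟩ := hx
      rcases Nat.lt_succ_iff_lt_or_eq.1 hi with h | h
      · left
        simp only [mem_iUnion, Finset.mem_range]
        exact ⟨i, h, hxi⟩
      · right
        subst h
        exact hxi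
  have hne : ∃ x ∈ A, x ∉ ⋃ i ∈ Finset.range (E'.card + 1), {x | x ∈ A ∧ x * s i ∉ (E' : Set G) * V} := by
    by_contra hno
    push Not at hno
    apply hI_proper
    refine hI_mono _ _ ?_ (hun (E'.card + 1))
    intro x hx
    exact hno x hx.1
  obtain ⟨x, hxA, hx⟩ := hne
  have hx' : ∀ i, i < E'.card + 1 → ∃ e ∈ E', ∃ o ∈ V, e * o = x * s i := by
    intro i hi
    by_contra hno
    apply hx
    simp only [mem_iUnion, Finset.mem_range]
    refine ⟨i, hi, hxA, ?_⟩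
    intro hmem
    obtain ⟨e, he, o, ho, heo⟩ := Set.mem_mul.1 hmem
    exact hno ⟨e, by simpa using he, o, ho, heo⟩
  choose! e he o ho heo using hx'
  obtain ⟨i, hi, j, hj, hij, heij⟩ : ∃ i ∈ Finset.range (E'.card + 1),
      ∃ j ∈ Finset.range (E'.card + 1), i ≠ j ∧ e i = e j := by
    apply Finset.exists_ne_map_eq_of_card_lt_of_maps_to (t := E')
    · simp
    · intro i hi
      exact he i (by simpa using hi)
  have key : ∀ i j, i < E'.card + 1 → j < E'.card + 1 → i < j → e i = e j → False := by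
    intro i j hi hj hij hee
    apply hs i j hij
    have h1 : (s i)⁻¹ * s j = (o i)⁻¹ * o j := by
      have h2 : (s i)⁻¹ * s j = (x * s i)⁻¹ * (x * s j) := by group
      rw [h2, ← heo i hi, ← heo j hj, hee]
      group
    rw [h1]
    exact hV _ (ho i hi) _ (ho j hj)
  rw [Finset.mem_range] at hi hj
  rcases lt_or_gt_of_ne hij with h | h
  · exact key i j hi hj h heij
  · exact key j i hj hi h heij.symm

variable [TopologicalSpace G] [IsTopologicalGroup G]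

/-- The general fusion argument. -/
theorem game
    (O : ℕ → Set G) (hO1 : ∀ n, O n ∈ 𝓝 (1:G))
    (hOm : ∀ n, ∀ x ∈ O (n+1), ∀ y ∈ O (n+1), x * y ∈ O n)
    (hOi : ∀ n, ∀ x ∈ O n, x⁻¹ ∈ O n) (hOa : Antitone O)
    (hOb : ∀ U ∈ 𝓝 (1:G), ∃ n, O n ⊆ U)
    (F : ℕ → Set G) (hFf : ∀ n, (F n).Finite) (hFm : Monotone F)
    {Λ R : Type*} (ltL : Λ → Λ → Prop) (ltR : R → R → Prop)
    (A : Λ → Set G) (B : R → Set G) (I : Λ → Set G → Prop)
    (hI_mono : ∀ l S S', S ∩ A l ⊆ S' → I l S' → I l S)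
    (hI_union : ∀ l S S', I l S → I l S' → I l (S ∪ S'))
    (hI_empty : ∀ l, I l ∅)
    (hI_proper : ∀ l, ¬ I l (A l))
    (hAref : ∀ l, ∀ a ∈ A l, ∀ N ∈ 𝓝 a, ∃ l', ltL l l' ∧ a ∈ A l' ∧ A l' ⊆ N)
    (hBref : ∀ r, ∀ a ∈ B r, ∀ N ∈ 𝓝 a, ∃ r', ltR r r' ∧ a ∈ B r' ∧ B r' ⊆ N)
    (hG : ∀ l r, ∃ r', (∀ r'', ltR r' r'' → ltR r r'') ∧ ∃ W ∈ 𝓝 (1:G), ∀ l', ltL l l' →
      ∀ b : ℕ, ∃ p > b, ∃ s : ℕ → G, (∀ i, s i ∈ B r') ∧ (∀ i j, i < j → (s i)⁻¹ * s j ∉ W) ∧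
        ∀ i, ∀ E : Set G, E.Finite → I l' {x | x * s i ∈ E * O p})
    (hlim : ∀ (l : ℕ → Λ) (r : ℕ → R), (∀ k, ltL (l k) (l (k+1))) →
      (∀ k, ltR (r k) (r (k+1))) → ∃ a b, (∀ k, a ∈ A (l k)) ∧ ∀ k, b ∈ B (r k))
    (l0 : Λ) (r0 : R) :
    ∃ (a b : G) (n0 : ℕ), (∃ l, a ∈ A l) ∧ (∃ r, b ∈ B r) ∧ ∀ n ≥ n0, a * b ∉ F n * O n := by
  classical
  -- states
  let St := {t : Λ × R × G × ℕ × ℕ //
    t.2.2.2.2 < t.2.2.2.1 ∧
    (∀ E : Set G, E.Finite → I t.1 {x | x * t.2.2.1 ∈ E * O t.2.2.2.1}) ∧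
    (¬ I t.1 {x | x ∈ A t.1 ∧ x * t.2.2.1 ∉ F t.2.2.2.1 * O t.2.2.2.2}) ∧
    (∀ y ∈ B t.2.1, (t.2.2.1)⁻¹ * y ∈ O (t.2.2.2.1 + 2))}
  -- making a state
  have mk : ∀ (l : Λ) (r r' : R) (W : Set G) (b : ℕ), (∀ r'', ltR r' r'' → ltR r r'') →
      (∀ x ∈ O b, ∀ y ∈ O b, x⁻¹ * y ∈ W) →
      (∃ p > b, ∃ s : ℕ → G, (∀ i, s i ∈ B r') ∧ (∀ i j, i < j → (s i)⁻¹ * s j ∉ W) ∧
        ∀ i, ∀ E : Set G, E.Finite → I l {x | x * s i ∈ E * O p}) →
      ∃ t : St, t.1.1 = l ∧ ltR r t.1.2.1 ∧ t.1.2.2.2.2 = b := by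
    intro l r r' W b hr' hbW ⟨p, hpb, s, hsB, hsW, hsI⟩
    obtain ⟨i, hi⟩ := pigeon (A l) (I l) (hI_mono l) (hI_union l) (hI_empty l) (hI_proper l)
      (F p) (O b) W (hFf p) hbW s hsW
    have hN : {y | (s i)⁻¹ * y ∈ O (p+2)} ∈ 𝓝 (s i) := by
      have hc : ContinuousAt (fun y : G => (s i)⁻¹ * y) (s i) := by fun_prop
      apply hc.preimage_mem_nhds
      simpa using hO1 (p+2)
    obtain ⟨r'', hr'', -, hr''N⟩ := hBref r' (s i) (hsB i) _ hN
    exact ⟨⟨⟨l, r'', s i, p, b⟩, hpb, hsI i, hi, fun y hy => hr''N hy⟩, rfl, hr' _ hr'', rfl⟩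
  -- symmetric consequence
  have hOb2 : ∀ U ∈ 𝓝 (1:G), ∀ q : ℕ, ∃ n, q < n ∧ ∀ x ∈ O n, ∀ y ∈ O n, x⁻¹ * y ∈ U := by
    intro U hU q
    obtain ⟨n, hn⟩ := hOb U hU
    refine ⟨max (n+1) (q+1), by omega, ?_⟩
    intro x hx y hy
    apply hn
    apply hOm
    · exact hOi _ _ (hOa (le_max_left _ _) hx)
    · exact hOa (le_max_left _ _) hy
  -- the round
  have round : ∀ t : St, ∃ t' : St, ltL t.1.1 t'.1.1 ∧ ltR t.1.2.1 t'.1.2.1 ∧
      t.1.2.2.2.2 < t'.1.2.2.2.2 ∧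
      ∀ x ∈ A t'.1.1, ∀ y ∈ B t.1.2.1, ∀ n, t.1.2.2.2.2 < n → n ≤ t'.1.2.2.2.2 →
        x * y ∉ F n * O n := by
    rintro ⟨⟨l, r, s, p, b⟩, hbp, hA1, hA2, hA3⟩
    dsimp only at hbp hA1 hA2 hA3
    obtain ⟨r', hr', W, hW, hGW⟩ := hG l r
    obtain ⟨b', hpb', hb'W⟩ := hOb2 W hW p
    -- choose the point
    obtain ⟨x0, hx0A, hx0b, hx0E⟩ : ∃ x0 ∈ A l, x0 * s ∉ F p * O b ∧ x0 * s ∉ F b' * O p := by
      by_contra hno
      push Not at hno
      apply hA2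
      refine hI_mono l _ _ ?_ (hA1 (F b') (hFf b'))
      rintro x ⟨⟨hxA, hx⟩, -⟩
      exact hno x hxA hx
    have hN : {x | (x0 * s)⁻¹ * (x * s) ∈ O (p+2)} ∈ 𝓝 x0 := by
      have hc : ContinuousAt (fun x : G => (x0 * s)⁻¹ * (x * s)) x0 := by fun_prop
      apply hc.preimage_mem_nhds
      simpa using hO1 (p+2)
    obtain ⟨l', hl', hx0l', hl'N⟩ := hAref l x0 hx0A _ hN
    obtain ⟨t', ht'l, ht'r, ht'b⟩ := mk l' r r' W b' hr' hb'W (hGW l' hl' b')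
    refine ⟨t', by rw [ht'l]; exact hl', ht'r, by rw [ht'b]; dsimp only; omega, ?_⟩
    rw [ht'l, ht'b]
    dsimp only
    intro x hx y hy n hbn hnb' hmem
    obtain ⟨f, hf, o, ho, hfo⟩ := Set.mem_mul.1 hmem
    have h1 : (x0 * s)⁻¹ * (x * s) ∈ O (p+2) := hl'N hx
    have h2 : s⁻¹ * y ∈ O (p+2) := hA3 y hy
    have h3 : (x0 * s)⁻¹ * (x * y) ∈ O (p+1) := by
      have := hOm (p+1) _ h1 _ h2
      have heq : (x0 * s)⁻¹ * (x * s) * (s⁻¹ * y) = (x0 * s)⁻¹ * (x * y) := by group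
      rwa [heq] at this
    have h4 : (x * y)⁻¹ * (x0 * s) ∈ O (p+1) := by
      have := hOi _ _ h3
      have heq : ((x0 * s)⁻¹ * (x * y))⁻¹ = (x * y)⁻¹ * (x0 * s) := by group
      rwa [heq] at this
    have h5 : x0 * s = f * (o * ((x * y)⁻¹ * (x0 * s))) := by
      rw [← mul_assoc, hfo]; group
    by_cases hnp : n ≤ p
    · apply hx0b
      rw [h5]
      refine Set.mul_mem_mul (hFm hnp hf) ?_
      apply hOm b
      · exact hOa (by omega) ho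
      · exact hOa (by omega) h4
    · apply hx0E
      rw [h5]
      refine Set.mul_mem_mul (hFm hnb' hf) ?_
      apply hOm p
      · exact hOa (by omega) ho
      · exact h4
  -- initial state
  obtain ⟨t0⟩ : Nonempty St := by
    obtain ⟨a, ha⟩ : (A l0).Nonempty := by
      by_contra hno
      rw [not_nonempty_iff_eq_empty] at hno
      apply hI_proper l0
      rw [hno]
      exact hI_empty l0
    obtain ⟨l1, hl1, -, -⟩ := hAref l0 a ha univ univ_mem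
    obtain ⟨r', hr', W, hW, hGW⟩ := hG l0 r0
    obtain ⟨b', -, hb'W⟩ := hOb2 W hW 0
    obtain ⟨t, -⟩ := mk l1 r0 r' W b' hr' hb'W (hGW l1 hl1 b')
    exact ⟨t⟩
  choose nxt hnxt using round
  let seq : ℕ → St := fun k => nxt^[k] t0
  have hseq : ∀ k, seq (k+1) = nxt (seq k) := fun k => Function.iterate_succ_apply' nxt k t0
  obtain ⟨a, c, ha, hc⟩ := hlim (fun k => (seq k).1.1) (fun k => (seq k).1.2.1)
    (fun k => by simp only [hseq]; exact (hnxt (seq k)).1)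
    (fun k => by simp only [hseq]; exact (hnxt (seq k)).2.1)
  refine ⟨a, c, (seq 0).1.2.2.2.2 + 1, ⟨_, ha 0⟩, ⟨_, hc 0⟩, ?_⟩
  intro n hn
  -- find k
  have hmono : ∀ k, (seq k).1.2.2.2.2 < (seq (k+1)).1.2.2.2.2 := by
    intro k
    rw [hseq]
    exact (hnxt (seq k)).2.2.1
  have hex : ∃ k, n ≤ (seq (k+1)).1.2.2.2.2 := by
    have : ∀ k, k ≤ (seq k).1.2.2.2.2 := by
      intro k
      induction k with
      | zero => omega
      | succ k ih => have := hmono k; omega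
    exact ⟨n, by have := this (n+1); omega⟩
  let k := Nat.find hex
  have hk : n ≤ (seq (k+1)).1.2.2.2.2 := Nat.find_spec hex
  have hk' : (seq k).1.2.2.2.2 < n := by
    rcases Nat.eq_zero_or_pos k with h0 | hpos
    · rw [h0]; omega
    · have hlt : k - 1 < k := by omega
      have := Nat.find_min hex hlt
      have heq : k - 1 + 1 = k := by omega
      rw [heq] at this
      omega
  have := (hnxt (seq k)).2.2.2 a (by rw [← hseq]; exact ha (k+1)) c (hc k) n hk'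
    (by rw [← hseq]; exact hk)
  exact this

end Pool.Agent.Lib.MP_913206_gt
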