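import Pool.Agent.Lib.MP_913206_gt.Build
import Pool.Agent.Lib.MP_913206_gt.Defs

set_option autoImplicit false

open Set Filter Topology Pointwise

namespace Pool.Agent.Lib.MP_913206_gt

universe u

/-- Hurewicz-smallness of the whole group gives a gamma-cover. -/
theorem gamma_of_hsmall (G : Type u) [Group G] [TopologicalSpace G] [IsTopologicalGroup G]
    (U : ℕ → Set G) (hUo : ∀ n, IsOpen (U n)) (hUn : ∀ n, ∀ F : Set G, F.Finite → F * U n ≠ univ)
    (h : HSmall U (univ : Set G)) :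
    ∃ F : ℕ → Set G, (∀ n, (F n).Finite) ∧ range (fun n => F n * U n) ∈ GammaCovers G := by
  classical
  obtain ⟨F, hF, hn⟩ := h
  have hn' : ∀ g : G, ∃ n0, ∀ n ≥ n0, g ∈ F n * U n := fun g => hn g (mem_univ g)
  choose N hN using hn'
  refine ⟨F, hF, ⟨?_, ?_, ?_⟩, ?_, ?_⟩
  · rintro V ⟨n, rfl⟩
    exact (hUo n).mul_left
  · rintro ⟨n, hn⟩
    exact hUn n (F n) (hF n) hn
  · rw [eq_univ_iff_forall]
    intro g
    exact ⟨F (N g) * U (N g), ⟨N g, rfl⟩, hN g _ le_rfl⟩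
  · intro hfin
    have hch : ∀ V ∈ range (fun n => F n * U n), ∃ g : G, g ∉ V := by
      rintro V ⟨n, rfl⟩
      by_contra hno
      push Not at hno
      exact hUn n (F n) (hF n) (eq_univ_iff_forall.2 hno)
    choose! c hc using hch
    obtain ⟨M, hM⟩ := (hfin.image (fun V => N (c V))).bddAbove
    have h1 : F M * U M ∈ range (fun n => F n * U n) := ⟨M, rfl⟩
    exact hc _ h1 (hN _ M (hM ⟨_, h1, rfl⟩))
  · intro g
    refine ((finite_lt_nat (N g)).image (fun n => F n * U n)).subset ?_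
    rintro V ⟨⟨n, rfl⟩, hg⟩
    refine ⟨n, ?_, rfl⟩
    by_contra hlt
    exact hg (hN g n (by simpa using hlt))

/-- A Menger-bounded first countable group has finite sets `F n` such that every element lies in
infinitely many `F n * O n`. -/
theorem menger_io (G : Type u) [Group G] [TopologicalSpace G] [IsTopologicalGroup G]
    (hM : Sfin (Onbd G) (OpenCovers G)) (U0 : Set G) (hU0 : IsOpen U0) (h1U0 : (1 : G) ∈ U0)
    (hU0n : U0 ≠ univ) (O : ℕ → Set G) (hO : ∀ n, O n ∈ 𝓝 (1 : G)) :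
    ∃ F : ℕ → Set G, (∀ n, (F n).Finite) ∧ Monotone F ∧
      ∀ w : G, ∀ n0 : ℕ, ∃ n ≥ n0, w ∈ F n * O n := by
  classical
  have key : ∀ U : ℕ → Set G, (∀ n, IsOpen (U n)) → (∀ n, (1 : G) ∈ U n) → (∀ n, U n ≠ univ) →
      ∃ E : ℕ → Set G, (∀ n, (E n).Finite) ∧ ∀ w : G, ∃ n, w ∈ E n * U n := by
    intro U hUo hU1 hUn
    obtain ⟨ℱ, hℱ, hcov⟩ := hM (fun n => {V | ∃ g : G, V = g • U n})
      (fun n => ⟨U n, hUo n, hU1 n, hUn n, rfl⟩)
    have hc : ∀ n, ∀ V ∈ ℱ n, ∃ g : G, V = g • U n := fun n V hV => (hℱ n).1 hV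
    choose! c hc using hc
    refine ⟨fun n => c n '' ℱ n, fun n => (hℱ n).2.image _, ?_⟩
    intro w
    have hw : w ∈ ⋃₀ (⋃ n, ℱ n) := by rw [hcov.2.2]; exact mem_univ w
    obtain ⟨V, hV, hwV⟩ := hw
    obtain ⟨n, hn⟩ := mem_iUnion.1 hV
    refine ⟨n, ?_⟩
    have hVe := hc n V hn
    rw [hVe] at hwV
    obtain ⟨x, hx, hxw⟩ := hwV
    exact mem_mul.2 ⟨c n V, ⟨V, hn, rfl⟩, x, hx, hxw⟩
  have key2 : ∀ j : ℕ, ∃ E : ℕ → Set G, (∀ n, (E n).Finite) ∧
      ∀ w : G, ∃ i, w ∈ E i * (interior (O (Nat.pair j i)) ∩ U0) := by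
    intro j
    apply key
    · exact fun n => isOpen_interior.inter hU0
    · exact fun n => ⟨mem_interior_iff_mem_nhds.2 (hO _), h1U0⟩
    · intro n hn
      exact hU0n (univ_subset_iff.1 (hn ▸ inter_subset_right))
  choose E hE hEw using key2
  refine ⟨fun n => ⋃ k ∈ Finset.range (n+1), E (Nat.unpair k).1 (Nat.unpair k).2, ?_, ?_, ?_⟩
  · exact fun n => Set.Finite.biUnion (Finset.finite_toSet _) fun k _ => hE _ _
  · intro m n hmn
    refine biUnion_subset_biUnion_left ?_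
    intro k hk
    have h1 : k < m + 1 := by simpa using hk
    have h2 : k < n + 1 := by omega
    simpa using h2
  · intro w n0
    obtain ⟨i, hi⟩ := hEw n0 w
    refine ⟨Nat.pair n0 i, Nat.left_le_pair _ _, ?_⟩
    obtain ⟨e, he, o, ho, heo⟩ := mem_mul.1 hi
    refine mem_mul.2 ⟨e, ?_, o, interior_subset ho.1, heo⟩
    simp only [mem_iUnion, Finset.mem_range]
    exact ⟨Nat.pair n0 i, by omega, by simpa using he⟩

/-- Every analytic topological group satisfying `S_fin(𝒪_nbd, 𝒪)` (Menger-bounded) also satisfies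
`S_1(Ω_nbd, Γ)` (Hurewicz-bounded). -/
theorem main (G : Type u) [Group G] [TopologicalSpace G] [IsTopologicalGroup G] [T2Space G]
    (hG : IsAnalyticSpace G) (hM : Sfin (Onbd G) (OpenCovers G)) :
    S1 (Omeganbd G) (GammaCovers G) := by
  classical
  obtain ⟨-, hmet, f, hf, hsurj⟩ := hG
  intro 𝒰 h𝒰
  choose U hUo hU1 hUn hUe using h𝒰
  by_cases hsm : HSmall U (univ : Set G)
  · obtain ⟨F, hF, hΓ⟩ := gamma_of_hsmall G U hUo hUn hsm
    refine ⟨fun n => F n * U n, fun n => ?_, hΓ⟩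
    rw [hUe n]
    exact ⟨F n, hF n, rfl⟩
  · exfalso
    obtain ⟨T⟩ := exists_treeSys U (fun n => (hUo n).mem_nhds (hU1 n)) f hf
      (range_eq_univ.2 hsurj) hsm
    have : FirstCountableTopology G := by
      let _ := TopologicalSpace.metrizableSpaceMetric G
      infer_instance
    obtain ⟨u, hu, hum⟩ := IsTopologicalGroup.exists_antitone_basis_nhds_one G
    let O : ℕ → Set G := fun n => u n ∩ (u n)⁻¹
    have hO1 : ∀ n, O n ∈ 𝓝 (1:G) := fun n =>
      inter_mem (hu.1.mem_of_mem trivial) (inv_mem_nhds_one G (hu.1.mem_of_mem trivial))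
    have hOm : ∀ n, ∀ x ∈ O (n+1), ∀ y ∈ O (n+1), x * y ∈ O n := by
      rintro n x ⟨hx, hx'⟩ y ⟨hy, hy'⟩
      refine ⟨hum n (Set.mul_mem_mul hx hy), ?_⟩
      rw [Set.mem_inv, mul_inv_rev]
      exact hum n (Set.mul_mem_mul hy' hx')
    have hOi : ∀ n, ∀ x ∈ O n, x⁻¹ ∈ O n := by
      rintro n x ⟨hx, hx'⟩
      exact ⟨hx', by simpa using hx⟩
    have hOa : Antitone O := by
      intro m n hmn x hx
      exact ⟨hu.antitone hmn hx.1, hu.antitone hmn hx.2⟩
    have hOb : ∀ V ∈ 𝓝 (1:G), ∃ n, O n ⊆ V := by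
      intro V hV
      obtain ⟨n, -, hn⟩ := hu.1.mem_iff.1 hV
      exact ⟨n, inter_subset_left.trans hn⟩
    have hU0 : U 0 ≠ univ := by
      intro h
      apply hUn 0 {1} (finite_singleton _)
      rw [h]
      exact eq_univ_iff_forall.2 fun x => mem_mul.2 ⟨1, rfl, x, mem_univ x, one_mul x⟩
    obtain ⟨F, hFf, hFm, hFw⟩ := menger_io G hM (U 0) (hUo 0) (hU1 0) hU0 O hO1
    obtain ⟨w, n0, hw⟩ := T.escape O hO1 hOm hOi hOa hOb F hFf hFm
    obtain ⟨n, hn, hmem⟩ := hFw w n0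
    exact hw n hn hmem

end Pool.Agent.Lib.MP_913206_gt
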