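import Pool.Agent.Lib.MP_913206_gt.Game

set_option autoImplicit false

open Set Filter Topology Pointwise

namespace Pool.Agent.Lib.MP_913206_gt

variable {G : Type*} [Group G]

/-- `S` is covered by finitely many left translates of `W`. -/
def Bdd (S W : Set G) : Prop := ∃ F : Set G, F.Finite ∧ S ⊆ F * W

theorem Bdd.mono {S S' W : Set G} (h : Bdd S' W) (hs : S ⊆ S') : Bdd S W := by
  obtain ⟨F, hF, hS⟩ := h
  exact ⟨F, hF, hs.trans hS⟩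

theorem Bdd.union {S S' W : Set G} (h : Bdd S W) (h' : Bdd S' W) : Bdd (S ∪ S') W := by
  obtain ⟨F, hF, hS⟩ := h
  obtain ⟨F', hF', hS'⟩ := h'
  refine ⟨F ∪ F', hF.union hF', ?_⟩
  rw [Set.union_mul]
  exact Set.union_subset_union hS hS'

theorem Bdd.empty {W : Set G} : Bdd ∅ W := ⟨∅, Set.finite_empty, by simp⟩

theorem Bdd.biUnion {W : Set G} {ι : Type*} {E : Set ι} (hE : E.Finite) (S : ι → Set G)
    (h : ∀ e ∈ E, Bdd (S e) W) : Bdd (⋃ e ∈ E, S e) W := by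
  induction E, hE using Set.Finite.induction_on with
  | empty => simpa using Bdd.empty
  | @insert a s ha hs ih =>
    rw [Set.biUnion_insert]
    exact (h a (mem_insert _ _)).union (ih fun e he => h e (mem_insert_of_mem _ he))

theorem exists_sep {S W : Set G} (h : ¬ Bdd S W) :
    ∃ s : ℕ → G, (∀ i, s i ∈ S) ∧ ∀ i j, i < j → (s i)⁻¹ * s j ∉ W := by
  apply exists_seq_of_forall_finset_exists (fun x => x ∈ S) (fun x y => x⁻¹ * y ∉ W)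
  intro E _
  by_contra hno
  push Not at hno
  apply h
  refine ⟨(E : Set G), E.finite_toSet, ?_⟩
  intro y hy
  obtain ⟨x, hx, hxy⟩ := hno y hy
  exact Set.mem_mul.2 ⟨x, hx, x⁻¹ * y, hxy, by group⟩

variable [TopologicalSpace G]

/-- A tree of pieces of `G`, each piece unbounded at some scale. -/
structure TreeSys (G : Type*) [Group G] [TopologicalSpace G] where
  N : Type
  lt : N → N → Prop
  lt_trans : ∀ a b c, lt a b → lt b c → lt a c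
  P : N → Set G
  W : N → Set G
  W_nhds : ∀ v, W v ∈ 𝓝 (1:G)
  mono : ∀ v v', lt v v' → P v' ⊆ P v
  ref : ∀ v, ∀ a ∈ P v, ∀ U ∈ 𝓝 a, ∃ v', lt v v' ∧ a ∈ P v' ∧ P v' ⊆ U
  lim : ∀ s : ℕ → N, (∀ k, lt (s k) (s (k+1))) → ∃ a, ∀ k, a ∈ P (s k)
  nb : ∀ v, ¬ Bdd (P v) (W v)
  root : N

theorem TreeSys.exists_lt (T : TreeSys G) (v : T.N) : ∃ v', T.lt v v' := by
  have : (T.P v).Nonempty := by
    by_contra hno
    rw [not_nonempty_iff_eq_empty] at hno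
    apply T.nb v
    rw [hno]
    exact Bdd.empty
  obtain ⟨a, ha⟩ := this
  obtain ⟨v', hv', -⟩ := T.ref v a ha univ univ_mem
  exact ⟨v', hv'⟩

variable [IsTopologicalGroup G]

/-- The first case: words `z⁻¹ y`. -/
theorem playB (T : TreeSys G)
    (O : ℕ → Set G) (hO1 : ∀ n, O n ∈ 𝓝 (1:G))
    (hOm : ∀ n, ∀ x ∈ O (n+1), ∀ y ∈ O (n+1), x * y ∈ O n)
    (hOi : ∀ n, ∀ x ∈ O n, x⁻¹ ∈ O n) (hOa : Antitone O)
    (hOb : ∀ U ∈ 𝓝 (1:G), ∃ n, O n ⊆ U)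
    (F : ℕ → Set G) (hFf : ∀ n, (F n).Finite) (hFm : Monotone F)
    (y0 z0 : T.N)
    (hD : ∀ z1, T.lt z0 z1 → ∃ U ∈ 𝓝 (1:G), ∀ h ∈ T.P y0, ∀ g : G,
      Bdd (T.P z1 ∩ {z | h⁻¹ * z * g⁻¹ ∈ U}) (T.W z1)) :
    ∃ (w : G) (n0 : ℕ), ∀ n ≥ n0, w ∉ F n * O n := by
  obtain ⟨z1, hz1⟩ := T.exists_lt z0
  obtain ⟨y1, hy1⟩ := T.exists_lt y0
  obtain ⟨a, b, n0, -, -, h⟩ := game O hO1 hOm hOi hOa hOb F hFf hFm
    (Λ := {v // T.lt z0 v}) (R := {v // T.lt y0 v})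
    (fun v v' => T.lt v.1 v'.1) (fun v v' => T.lt v.1 v'.1)
    (fun v => {g | g⁻¹ ∈ T.P v.1}) (fun v => T.P v.1)
    (fun v S => Bdd {z | z ∈ T.P v.1 ∧ z⁻¹ ∈ S} (T.W v.1))
    (by
      intro l S S' hSS' hS'
      refine hS'.mono ?_
      rintro z ⟨hz, hzS⟩
      exact ⟨hz, hSS' ⟨hzS, by simpa using hz⟩⟩)
    (by
      intro l S S' hS hS'
      refine (hS.union hS').mono ?_
      rintro z ⟨hz, hzS | hzS⟩
      · exact Or.inl ⟨hz, hzS⟩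
      · exact Or.inr ⟨hz, hzS⟩)
    (by
      intro l
      refine Bdd.empty.mono ?_
      rintro z ⟨-, hz⟩
      exact hz.elim)
    (by
      intro l hb
      refine T.nb l.1 (hb.mono ?_)
      intro z hz
      exact ⟨hz, by simpa using hz⟩)
    (by
      intro l a ha N hN
      have hN' : (fun x : G => x⁻¹) ⁻¹' N ∈ 𝓝 (a⁻¹) := by
        apply ContinuousAt.preimage_mem_nhds
        · fun_prop
        · simpa using hN
      obtain ⟨v', hv', hav', hv'N⟩ := T.ref l.1 a⁻¹ ha _ hN'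
      refine ⟨⟨v', T.lt_trans _ _ _ l.2 hv'⟩, hv', hav', ?_⟩
      intro x hx
      have := hv'N hx
      simpa using this)
    (by
      intro r a ha N hN
      obtain ⟨v', hv', hav', hv'N⟩ := T.ref r.1 a ha _ hN
      exact ⟨⟨v', T.lt_trans _ _ _ r.2 hv'⟩, hv', hav', hv'N⟩)
    (by
      intro l r
      refine ⟨r, fun r'' h => h, T.W r.1, T.W_nhds _, ?_⟩
      intro l' hl' b
      obtain ⟨U, hU, hUb⟩ := hD l'.1 l'.2
      obtain ⟨p', hp'⟩ := hOb U hU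
      obtain ⟨s, hs, hsep⟩ := exists_sep (T.nb r.1)
      refine ⟨max p' (b+1), by have := le_max_right p' (b+1); omega, s, hs, hsep, ?_⟩
      intro i E hE
      refine (Bdd.biUnion hE (fun e => T.P l'.1 ∩ {z | (s i)⁻¹ * z * (e⁻¹)⁻¹ ∈ U})
        (fun e _ => hUb (s i) (T.mono _ _ r.2 (hs i)) e⁻¹)).mono ?_
      rintro z ⟨hz, hzE⟩
      obtain ⟨e, he, o, ho, heo⟩ := Set.mem_mul.1 hzE
      simp only [mem_iUnion]
      refine ⟨e, he, hz, ?_⟩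
      have h1 : (s i)⁻¹ * z * (e⁻¹)⁻¹ = o⁻¹ := by
        have : z⁻¹ * s i = e * o := heo.symm
        have h2 : z = s i * (e * o)⁻¹ := by rw [← this]; group
        rw [h2]; group
      show (s i)⁻¹ * z * (e⁻¹)⁻¹ ∈ U
      rw [h1]
      exact hp' (hOa (le_max_left _ _) (hOi _ _ ho)))
    (by
      intro l r hl hr
      obtain ⟨a, ha⟩ := T.lim (fun k => (l k).1) hl
      obtain ⟨b, hb⟩ := T.lim (fun k => (r k).1) hr
      exact ⟨a⁻¹, b, fun k => by simpa using ha k, hb⟩)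
    ⟨z1, hz1⟩ ⟨y1, hy1⟩
  exact ⟨a * b, n0, h⟩

/-- The second case: words `x y⁻¹ z`. -/
theorem playA (T : TreeSys G)
    (O : ℕ → Set G) (hO1 : ∀ n, O n ∈ 𝓝 (1:G))
    (hOm : ∀ n, ∀ x ∈ O (n+1), ∀ y ∈ O (n+1), x * y ∈ O n)
    (hOi : ∀ n, ∀ x ∈ O n, x⁻¹ ∈ O n) (hOa : Antitone O)
    (hOb : ∀ U ∈ 𝓝 (1:G), ∃ n, O n ⊆ U)
    (F : ℕ → Set G) (hFf : ∀ n, (F n).Finite) (hFm : Monotone F)
    (hD : ∀ y0 z0, ∃ z1, T.lt z0 z1 ∧ ∀ U ∈ 𝓝 (1:G), ∃ h ∈ T.P y0, ∃ g : G,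
      ¬ Bdd (T.P z1 ∩ {z | h⁻¹ * z * g⁻¹ ∈ U}) (T.W z1)) :
    ∃ (w : G) (n0 : ℕ), ∀ n ≥ n0, w ∉ F n * O n := by
  obtain ⟨a, b, n0, -, -, h⟩ := game O hO1 hOm hOi hOa hOb F hFf hFm
    (Λ := T.N) (R := T.N × T.N)
    T.lt (fun v v' => T.lt v.1 v'.1 ∧ T.lt v.2 v'.2)
    T.P (fun v => {g | ∃ η ∈ T.P v.1, ∃ ζ ∈ T.P v.2, g = η⁻¹ * ζ})
    (fun v S => Bdd (S ∩ T.P v) (T.W v))
    (by
      intro l S S' hSS' hS'
      refine hS'.mono ?_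
      rintro z ⟨hzS, hz⟩
      exact ⟨hSS' ⟨hzS, hz⟩, hz⟩)
    (by
      intro l S S' hS hS'
      refine (hS.union hS').mono ?_
      rintro z ⟨hzS | hzS, hz⟩
      · exact Or.inl ⟨hzS, hz⟩
      · exact Or.inr ⟨hzS, hz⟩)
    (by
      intro l
      refine Bdd.empty.mono ?_
      rintro z ⟨hz, -⟩
      exact hz.elim)
    (by
      intro l hb
      refine T.nb l (hb.mono ?_)
      intro z hz
      exact ⟨hz, hz⟩)
    T.ref
    (by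
      rintro ⟨y, z⟩ a ⟨η, hη, ζ, hζ, rfl⟩ N hN
      have hc : ContinuousAt (fun p : G × G => p.1⁻¹ * p.2) (η, ζ) := by fun_prop
      have hN' : (fun p : G × G => p.1⁻¹ * p.2) ⁻¹' N ∈ 𝓝 (η, ζ) := hc.preimage_mem_nhds hN
      obtain ⟨U, hU, V, hV, hUV⟩ := mem_nhds_prod_iff.1 hN'
      obtain ⟨y', hy', hηy', hy'U⟩ := T.ref y η hη U hU
      obtain ⟨z', hz', hζz', hz'V⟩ := T.ref z ζ hζ V hV
      refine ⟨(y', z'), ⟨hy', hz'⟩, ⟨η, hηy', ζ, hζz', rfl⟩, ?_⟩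
      rintro g ⟨η', hη', ζ', hζ', rfl⟩
      exact hUV (⟨hy'U hη', hz'V hζ'⟩ : (η', ζ') ∈ U ×ˢ V))
    (by
      rintro x ⟨y, z⟩
      obtain ⟨z1, hz1, hz1U⟩ := hD y z
      refine ⟨(y, z1), ?_, T.W z1, T.W_nhds _, ?_⟩
      · rintro ⟨y'', z''⟩ ⟨h1, h2⟩
        exact ⟨h1, T.lt_trans _ _ _ hz1 h2⟩
      intro x' hx' b
      obtain ⟨n, hn⟩ := hOb (T.W x') (T.W_nhds x')
      obtain ⟨h, hh, g, hg⟩ := hz1U (O (n+1)) (hO1 (n+1))
      have hconj : {o : G | g * o * g⁻¹ ∈ O (n+1)} ∈ 𝓝 (1:G) := by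
        have hc : ContinuousAt (fun o : G => g * o * g⁻¹) 1 := by fun_prop
        apply hc.preimage_mem_nhds
        simpa using hO1 (n+1)
      obtain ⟨p', hp'⟩ := hOb _ hconj
      obtain ⟨s, hs, hsep⟩ := exists_sep hg
      refine ⟨max p' (b+1), by have := le_max_right p' (b+1); omega, fun i => h⁻¹ * s i, ?_, ?_, ?_⟩
      · intro i
        exact ⟨h, hh, s i, (hs i).1, rfl⟩
      · intro i j hij
        have heq : (h⁻¹ * s i)⁻¹ * (h⁻¹ * s j) = (s i)⁻¹ * s j := by group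
        rw [heq]
        exact hsep i j hij
      · intro i E hE
        refine ⟨E * {g⁻¹}, hE.mul (finite_singleton _), ?_⟩
        rintro ξ ⟨hξ, -⟩
        obtain ⟨e, he, o, ho, heo⟩ := Set.mem_mul.1 hξ
        refine Set.mem_mul.2 ⟨e * g⁻¹, Set.mul_mem_mul he (mem_singleton _),
          (g * o * g⁻¹) * (h⁻¹ * s i * g⁻¹)⁻¹, ?_, ?_⟩
        · apply hn
          apply hOm
          · exact hp' (hOa (le_max_left _ _) ho)
          · exact hOi _ _ (hs i).2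
        · have h2 : ξ = e * o * (h⁻¹ * s i)⁻¹ := by
            have : ξ * (h⁻¹ * s i) = e * o := heo.symm
            rw [← this]; group
          rw [h2]; group)
    (by
      intro l r hl hr
      obtain ⟨a, ha⟩ := T.lim l hl
      obtain ⟨b, hb⟩ := T.lim (fun k => (r k).1) (fun k => (hr k).1)
      obtain ⟨c, hc⟩ := T.lim (fun k => (r k).2) (fun k => (hr k).2)
      exact ⟨a, b⁻¹ * c, ha, fun k => ⟨b, hb k, c, hc k, rfl⟩⟩)
    T.root (T.root, T.root)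
  exact ⟨a * b, n0, h⟩

/-- In a group with an unbounded tree, no sequence of finite sets works. -/
theorem TreeSys.escape (T : TreeSys G)
    (O : ℕ → Set G) (hO1 : ∀ n, O n ∈ 𝓝 (1:G))
    (hOm : ∀ n, ∀ x ∈ O (n+1), ∀ y ∈ O (n+1), x * y ∈ O n)
    (hOi : ∀ n, ∀ x ∈ O n, x⁻¹ ∈ O n) (hOa : Antitone O)
    (hOb : ∀ U ∈ 𝓝 (1:G), ∃ n, O n ⊆ U)
    (F : ℕ → Set G) (hFf : ∀ n, (F n).Finite) (hFm : Monotone F) :
    ∃ (w : G) (n0 : ℕ), ∀ n ≥ n0, w ∉ F n * O n := by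
  by_cases hD : ∃ y0 z0, ∀ z1, T.lt z0 z1 → ∃ U ∈ 𝓝 (1:G), ∀ h ∈ T.P y0, ∀ g : G,
      Bdd (T.P z1 ∩ {z | h⁻¹ * z * g⁻¹ ∈ U}) (T.W z1)
  · obtain ⟨y0, z0, hD⟩ := hD
    exact playB T O hO1 hOm hOi hOa hOb F hFf hFm y0 z0 hD
  · push Not at hD
    exact playA T O hO1 hOm hOi hOa hOb F hFf hFm hD

end Pool.Agent.Lib.MP_913206_gt
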